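import Pool.Agent.Helper22.RD.Final

/-!
# Every Ramsey-critical graph has a vertex of linear degree (MP_76db9d_co)
-/

namespace Pool.Agent.Results.MP_76db9d_co.LinearMaxDegree

/-- For every `k ≥ 2`, with `N = R(k+1,k)`, every graph on `N - 1` vertices without a clique of
size `k + 1` and without an independent set of size `k` has a vertex of degree at least
`N / 24`. -/
theorem result :
    ∀ k : ℕ, 2 ≤ k → ∀ N : ℕ,
      IsLeast {n : ℕ | ∀ G : SimpleGraph (Fin n), ¬ G.CliqueFree (k + 1) ∨ ¬ Gᶜ.CliqueFree k} N →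
      ∀ G : SimpleGraph (Fin (N - 1)), G.CliqueFree (k + 1) → Gᶜ.CliqueFree k →
        ∃ v : Fin (N - 1), (N : ℝ) / 24 ≤ ((G.neighborSet v).ncard : ℝ) :=
  fun k hk N hN G h1 h2 => Pool.Agent.Helper22.RD.main k hk N hN G h1 h2

end Pool.Agent.Results.MP_76db9d_co.LinearMaxDegree
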